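import Mathlib

/-!
# Braid groups on linearly ordered sets of strands
-/

set_option autoImplicit false
set_option linter.unusedSimpArgs false
set_option linter.unusedVariables false

namespace Pool.Agent.Q99.OB

/-- The index of the Birman–Ko–Lee generator `a_{ts}`, `s < t`. -/
structure Gen (Λ : Type) [LinearOrder Λ] where
  t : Λ
  s : Λ
  lt : s < t

/-- The pairs `s < t` and `s' < t'` are disjoint and not interlaced. -/
def NonCr {Λ : Type} [LinearOrder Λ] (g g' : Gen Λ) : Prop :=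
  g.t < g'.s ∨ g'.t < g.s ∨ (g'.s < g.s ∧ g.t < g'.t) ∨ (g.s < g'.s ∧ g'.t < g.t)

open FreeGroup (of)

/-- The relators of the Birman–Ko–Lee presentation: `a_{ts} a_{rq} = a_{rq} a_{ts}` if the pairs are
disjoint and not interlaced, `a_{ts} a_{sr} = a_{tr} a_{ts}` and `a_{ts} a_{sr} = a_{sr} a_{tr}` for
`r < s < t`. -/
def rels (Λ : Type) [LinearOrder Λ] : Set (FreeGroup (Gen Λ)) :=
  {x | (∃ g g' : Gen Λ, NonCr g g' ∧ x = of g * of g' * (of g' * of g)⁻¹) ∨
    ∃ (t s r : Λ) (h : s < t) (h' : r < s),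
      x = of ⟨t, s, h⟩ * of ⟨s, r, h'⟩ * (of ⟨t, r, h'.trans h⟩ * of ⟨t, s, h⟩)⁻¹ ∨
      x = of ⟨t, s, h⟩ * of ⟨s, r, h'⟩ * (of ⟨s, r, h'⟩ * of ⟨t, r, h'.trans h⟩)⁻¹}

/-- The braid group on the linearly ordered set `Λ` of strands (of any size). -/
def BG (Λ : Type) [LinearOrder Λ] : Type := PresentedGroup (rels Λ)

variable {Λ Λ' Λ'' : Type} [LinearOrder Λ] [LinearOrder Λ'] [LinearOrder Λ'']

instance : Group (BG Λ) := inferInstanceAs (Group (PresentedGroup (rels Λ)))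

/-- the generator `a_{ts}` -/
def a (g : Gen Λ) : BG Λ := PresentedGroup.of g

/-- the induced map of the generators -/
def Gen.map (f : Λ ↪o Λ') (g : Gen Λ) : Gen Λ' := ⟨f g.t, f g.s, f.lt_iff_lt.2 g.lt⟩

theorem Gen.map_inj (f : Λ ↪o Λ') : Function.Injective (Gen.map f) := by
  rintro ⟨t, s, h⟩ ⟨t', s', h'⟩ e
  have e1 : f t = f t' := congrArg Gen.t e
  have e2 : f s = f s' := congrArg Gen.s e
  obtain rfl := f.injective e1
  obtain rfl := f.injective e2
  rfl

theorem rels_map (f : Λ ↪o Λ') {x : FreeGroup (Gen Λ)} (hx : x ∈ rels Λ) :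
    FreeGroup.map (Gen.map f) x ∈ rels Λ' := by
  rcases hx with ⟨g, g', h, rfl⟩ | ⟨t, s, r, h, h', e | e⟩
  · left
    refine ⟨Gen.map f g, Gen.map f g', ?_, by simp⟩
    rcases h with h | h | ⟨h, h'⟩ | ⟨h, h'⟩
    · exact Or.inl (f.lt_iff_lt.2 h)
    · exact Or.inr (Or.inl (f.lt_iff_lt.2 h))
    · exact Or.inr (Or.inr (Or.inl ⟨f.lt_iff_lt.2 h, f.lt_iff_lt.2 h'⟩))
    · exact Or.inr (Or.inr (Or.inr ⟨f.lt_iff_lt.2 h, f.lt_iff_lt.2 h'⟩))
  · subst e
    exact Or.inr ⟨f t, f s, f r, f.lt_iff_lt.2 h, f.lt_iff_lt.2 h', Or.inl (by simp [Gen.map])⟩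
  · subst e
    exact Or.inr ⟨f t, f s, f r, f.lt_iff_lt.2 h, f.lt_iff_lt.2 h', Or.inr (by simp [Gen.map])⟩

theorem lift_eq (f : Λ ↪o Λ') : FreeGroup.lift (fun g : Gen Λ => a (Gen.map f g)) =
    (PresentedGroup.mk (rels Λ')).comp (FreeGroup.map (Gen.map f)) := by
  ext g
  simp only [FreeGroup.lift_apply_of, MonoidHom.comp_apply, FreeGroup.map.of]
  rfl

/-- The homomorphism of braid groups induced by an order embedding. -/
def map (f : Λ ↪o Λ') : BG Λ →* BG Λ' :=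
  PresentedGroup.toGroup (f := fun g : Gen Λ => a (Gen.map f g)) (by
    intro r hr
    rw [lift_eq]
    exact PresentedGroup.one_of_mem (rels_map f hr))

@[simp] theorem map_a (f : Λ ↪o Λ') (g : Gen Λ) : map f (a g) = a (Gen.map f g) :=
  PresentedGroup.toGroup.of _

theorem hom_ext {G : Type} [Group G] {φ ψ : BG Λ →* G} (h : ∀ g, φ (a g) = ψ (a g)) : φ = ψ :=
  PresentedGroup.ext h

theorem map_comp (f : Λ ↪o Λ') (f' : Λ' ↪o Λ'') (x : BG Λ) :
    map f' (map f x) = map (f.trans f') x := by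
  have : (map f').comp (map f) = map (f.trans f') := hom_ext (by
    intro g
    simp only [MonoidHom.comp_apply, map_a]
    rfl)
  exact DFunLike.congr_fun this x

theorem map_id (x : BG Λ) (f : Λ ↪o Λ) (hf : ∀ x, f x = x) : map f x = x := by
  have : map f = MonoidHom.id (BG Λ) := hom_ext (by
    intro g
    rw [map_a, MonoidHom.id_apply]
    congr 1
    obtain ⟨t, s, h⟩ := g
    simp only [Gen.map, hf])
  exact DFunLike.congr_fun this x

theorem a_comm {g g' : Gen Λ} (h : NonCr g g') : a g * a g' = a g' * a g := by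
  have := PresentedGroup.one_of_mem (rels := rels Λ) (Or.inl ⟨g, g', h, rfl⟩)
  rw [map_mul, map_inv, mul_inv_eq_one, map_mul, map_mul] at this
  exact this

theorem a_rel1 {t s r : Λ} (h : s < t) (h' : r < s) :
    a ⟨t, s, h⟩ * a ⟨s, r, h'⟩ = a ⟨t, r, h'.trans h⟩ * a ⟨t, s, h⟩ := by
  have := PresentedGroup.one_of_mem (rels := rels Λ) (Or.inr ⟨t, s, r, h, h', Or.inl rfl⟩)
  rw [map_mul, map_inv, mul_inv_eq_one, map_mul, map_mul] at this
  exact this

theorem a_rel2 {t s r : Λ} (h : s < t) (h' : r < s) :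
    a ⟨t, s, h⟩ * a ⟨s, r, h'⟩ = a ⟨s, r, h'⟩ * a ⟨t, r, h'.trans h⟩ := by
  have := PresentedGroup.one_of_mem (rels := rels Λ) (Or.inr ⟨t, s, r, h, h', Or.inr rfl⟩)
  rw [map_mul, map_inv, mul_inv_eq_one, map_mul, map_mul] at this
  exact this

/-- the inclusion of a finite set of strands -/
def inc (S : Finset Λ) : S ↪o Λ := OrderEmbedding.subtype (· ∈ S)

theorem inc_apply (S : Finset Λ) (x : S) : inc S x = x.1 := rfl

/-- the inclusion of finite sets of strands -/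
def incl {S T : Finset Λ} (h : S ⊆ T) : S ↪o T where
  toFun x := ⟨x.1, h x.2⟩
  inj' x y e := Subtype.ext (congrArg (fun z : T => z.1) e)
  map_rel_iff' := Iff.rfl

/-! ### words -/

/-- the inclusion of the free groups -/
abbrev fr (S : Finset Λ) : FreeGroup (Gen S) →* FreeGroup (Gen Λ) := FreeGroup.map (Gen.map (inc S))

theorem fr_inj (S : Finset Λ) : Function.Injective (fr S) :=
  FreeGroup.map_injective (Gen.map_inj _)

/-- each word is a word in the generators of finitely many strands -/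
theorem exists_lift (z : FreeGroup (Gen Λ)) :
    ∃ S : Finset Λ, ∀ T : Finset Λ, S ⊆ T → ∃ w : FreeGroup (Gen T), fr T w = z := by
  classical
  induction z using FreeGroup.induction_on with
  | C1 => exact ⟨∅, fun T _ => ⟨1, map_one _⟩⟩
  | of g =>
    refine ⟨{g.t, g.s}, fun T hT => ?_⟩
    have ht : g.t ∈ T := hT (by simp)
    have hs : g.s ∈ T := hT (by simp)
    exact ⟨of ⟨⟨g.t, ht⟩, ⟨g.s, hs⟩, g.lt⟩, by rw [FreeGroup.map.of]; rfl⟩
  | inv_of g h =>
    obtain ⟨S, hS⟩ := h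
    refine ⟨S, fun T hT => ?_⟩
    obtain ⟨w, hw⟩ := hS T hT
    exact ⟨w⁻¹, by rw [map_inv, hw]⟩
  | mul x y hx hy =>
    obtain ⟨S, hS⟩ := hx
    obtain ⟨S', hS'⟩ := hy
    refine ⟨S ∪ S', fun T hT => ?_⟩
    obtain ⟨w, hw⟩ := hS T (Finset.union_subset_left hT)
    obtain ⟨w', hw'⟩ := hS' T (Finset.union_subset_right hT)
    exact ⟨w * w', by rw [map_mul, hw, hw']⟩

/-- the words that are trivial in the braid groups of all large finite sets of strands -/
def triv (Λ : Type) [LinearOrder Λ] : Subgroup (FreeGroup (Gen Λ)) where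
  carrier := {z | ∃ S : Finset Λ, ∀ T : Finset Λ, S ⊆ T → ∀ w : FreeGroup (Gen T), fr T w = z →
    PresentedGroup.mk (rels T) w = 1}
  one_mem' := by
    refine ⟨∅, fun T _ w hw => ?_⟩
    rw [fr_inj T (hw.trans (map_one _).symm), map_one]
  mul_mem' := by
    classical
    rintro z z' ⟨S, hS⟩ ⟨S', hS'⟩
    obtain ⟨U, hU⟩ := exists_lift z
    obtain ⟨U', hU'⟩ := exists_lift z'
    refine ⟨(S ∪ S') ∪ (U ∪ U'), fun T hT w hw => ?_⟩
    have h1 := Finset.union_subset_left hT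
    have h2 := Finset.union_subset_right hT
    obtain ⟨y, hy⟩ := hU T (Finset.union_subset_left h2)
    obtain ⟨y', hy'⟩ := hU' T (Finset.union_subset_right h2)
    have e : w = y * y' := fr_inj T (by rw [hw, map_mul, hy, hy'])
    rw [e, map_mul, hS T (Finset.union_subset_left h1) y hy,
      hS' T (Finset.union_subset_right h1) y' hy', mul_one]
  inv_mem' := by
    rintro z ⟨S, hS⟩
    refine ⟨S, fun T hT w hw => ?_⟩
    have := hS T hT w⁻¹ (by rw [map_inv, hw, inv_inv])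
    rwa [map_inv, inv_eq_one] at this

instance : (triv Λ).Normal := by
  classical
  refine ⟨?_⟩
  rintro z ⟨S, hS⟩ g
  obtain ⟨U, hU⟩ := exists_lift z
  obtain ⟨U', hU'⟩ := exists_lift g
  refine ⟨S ∪ (U ∪ U'), fun T hT w hw => ?_⟩
  have h1 := Finset.union_subset_left hT
  have h2 := Finset.union_subset_right hT
  obtain ⟨y, hy⟩ := hU T (Finset.union_subset_left h2)
  obtain ⟨y', hy'⟩ := hU' T (Finset.union_subset_right h2)
  have e : w = y' * y * y'⁻¹ := fr_inj T (by rw [hw, map_mul, map_mul, map_inv, hy, hy'])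
  rw [e, map_mul, map_mul, map_inv, hS T h1 y hy, mul_one, mul_inv_cancel]

theorem rels_triv : rels Λ ⊆ triv Λ := by
  classical
  rintro x (⟨g, g', h, e⟩ | ⟨t, s, r, h, h', e⟩)
  · refine ⟨{g.t, g.s, g'.t, g'.s}, fun T hT w hw => ?_⟩
    have h1 : g.t ∈ T := hT (by simp)
    have h2 : g.s ∈ T := hT (by simp)
    have h3 : g'.t ∈ T := hT (by simp)
    have h4 : g'.s ∈ T := hT (by simp)
    have e1 : w = of ⟨⟨g.t, h1⟩, ⟨g.s, h2⟩, g.lt⟩ * of ⟨⟨g'.t, h3⟩, ⟨g'.s, h4⟩, g'.lt⟩ *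
        (of ⟨⟨g'.t, h3⟩, ⟨g'.s, h4⟩, g'.lt⟩ * of ⟨⟨g.t, h1⟩, ⟨g.s, h2⟩, g.lt⟩)⁻¹ := by
      apply fr_inj T
      rw [hw, e]
      simp only [map_mul, map_inv, FreeGroup.map.of]
      rfl
    rw [e1]
    exact PresentedGroup.one_of_mem (Or.inl ⟨_, _, h, rfl⟩)
  · refine ⟨{t, s, r}, fun T hT w hw => ?_⟩
    have h1 : t ∈ T := hT (by simp)
    have h2 : s ∈ T := hT (by simp)
    have h3 : r ∈ T := hT (by simp)
    rcases e with e | e
    · have e1 : w = of ⟨⟨t, h1⟩, ⟨s, h2⟩, h⟩ * of ⟨⟨s, h2⟩, ⟨r, h3⟩, h'⟩ *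
          (of ⟨⟨t, h1⟩, ⟨r, h3⟩, h'.trans h⟩ * of ⟨⟨t, h1⟩, ⟨s, h2⟩, h⟩)⁻¹ := by
        apply fr_inj T
        rw [hw, e]
        simp only [map_mul, map_inv, FreeGroup.map.of]
        rfl
      rw [e1]
      exact PresentedGroup.one_of_mem (Or.inr ⟨⟨t, h1⟩, ⟨s, h2⟩, ⟨r, h3⟩, h, h', Or.inl rfl⟩)
    · have e1 : w = of ⟨⟨t, h1⟩, ⟨s, h2⟩, h⟩ * of ⟨⟨s, h2⟩, ⟨r, h3⟩, h'⟩ *
          (of ⟨⟨s, h2⟩, ⟨r, h3⟩, h'⟩ * of ⟨⟨t, h1⟩, ⟨r, h3⟩, h'.trans h⟩)⁻¹ := by
        apply fr_inj T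
        rw [hw, e]
        simp only [map_mul, map_inv, FreeGroup.map.of]
        rfl
      rw [e1]
      exact PresentedGroup.one_of_mem (Or.inr ⟨⟨t, h1⟩, ⟨s, h2⟩, ⟨r, h3⟩, h, h', Or.inr rfl⟩)

theorem mk_fr (S : Finset Λ) (w : FreeGroup (Gen S)) :
    map (inc S) (PresentedGroup.mk (rels S) w) = PresentedGroup.mk (rels Λ) (fr S w) := by
  have : (map (inc S)).comp (PresentedGroup.mk (rels S)) =
      (PresentedGroup.mk (rels Λ)).comp (fr S) := by
    refine FreeGroup.ext_hom _ _ (fun g => ?_)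
    change map (inc S) (a g) = PresentedGroup.mk (rels Λ) (FreeGroup.map _ (of g))
    rw [FreeGroup.map.of]
    exact map_a _ _
  exact DFunLike.congr_fun this w

theorem mk_incl {S T : Finset Λ} (h : S ⊆ T) (w : FreeGroup (Gen S)) :
    map (incl h) (PresentedGroup.mk (rels S) w) =
      PresentedGroup.mk (rels T) (FreeGroup.map (Gen.map (incl h)) w) := by
  have : (map (incl h)).comp (PresentedGroup.mk (rels S)) =
      (PresentedGroup.mk (rels T)).comp (FreeGroup.map (Gen.map (incl h))) := by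
    refine FreeGroup.ext_hom _ _ (fun g => ?_)
    change map (incl h) (a g) = PresentedGroup.mk (rels T) (FreeGroup.map _ (of g))
    rw [FreeGroup.map.of]
    exact map_a _ _
  exact DFunLike.congr_fun this w

/-- the kernel of the map of the braid group of finitely many strands dies at a finite stage -/
theorem kernel_fin (S : Finset Λ) (x : BG S) (hx : map (inc S) x = 1) :
    ∃ (T : Finset Λ) (h : S ⊆ T), map (incl h) x = 1 := by
  classical
  obtain ⟨w, rfl⟩ := PresentedGroup.mk_surjective (rels S) x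
  rw [mk_fr] at hx
  have h1 : fr S w ∈ Subgroup.normalClosure (rels Λ) := PresentedGroup.mk_eq_one_iff.1 hx
  have h2 : fr S w ∈ triv Λ := Subgroup.normalClosure_le_normal rels_triv h1
  obtain ⟨U, hU⟩ := h2
  refine ⟨S ∪ U, Finset.subset_union_left, ?_⟩
  rw [mk_incl]
  apply hU _ Finset.subset_union_right
  have h3 : fr (S ∪ U) (FreeGroup.map (Gen.map (incl Finset.subset_union_left)) w) =
      ((fr (S ∪ U)).comp (FreeGroup.map (Gen.map (incl Finset.subset_union_left)))) w := rfl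
  rw [h3]
  have h4 : (fr (S ∪ U)).comp (FreeGroup.map (Gen.map (incl Finset.subset_union_left))) = fr S := by
    ext g
    simp only [MonoidHom.comp_apply, FreeGroup.map.of]
    rfl
  rw [h4]

theorem exists_fin (x : BG Λ) : ∃ (S : Finset Λ) (y : BG S), map (inc S) y = x := by
  obtain ⟨z, rfl⟩ := PresentedGroup.mk_surjective (rels Λ) x
  obtain ⟨S, hS⟩ := exists_lift z
  obtain ⟨w, hw⟩ := hS S (Finset.Subset.refl S)
  exact ⟨S, PresentedGroup.mk (rels S) w, by rw [mk_fr, hw]⟩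

end Pool.Agent.Q99.OB
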