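import Pool.Agent.Q99.OB.Basic
import Pool.Agent.Q105.FJ.Approx

/-!
# Order embeddings of the strands act by locally inner automorphisms
-/

set_option autoImplicit false

namespace Pool.Agent.Q99.OB

open Pool.Agent.Y462.SS Pool.Agent.Q152.WP Pool.Agent.Q105.FJ

variable {Λ Λ' : Type} [LinearOrder Λ] [LinearOrder Λ'] {k : ℕ}

theorem a_congr {t s t' s' : Λ} (h : s < t) (h' : s' < t') (e : t = t') (e' : s = s') :
    a (⟨t, s, h⟩ : Gen Λ) = a ⟨t', s', h'⟩ := by
  subst e
  subst e'
  rfl

/-- the generator of two of the points of an increasing family -/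
def A (g : Fin k → Λ) (hg : StrictMono g) (i j : Fin k) (h : i < j) : BG Λ := a ⟨g j, g i, hg h⟩

/-- two increasing families of strands are conjugate -/
def Conn (g h : Fin k → Λ) : Prop :=
  ∃ (hg : StrictMono g) (hh : StrictMono h) (b : BG Λ), ∀ i j (hij : i < j),
    b * A g hg i j hij * b⁻¹ = A h hh i j hij

theorem Conn.refl {g : Fin k → Λ} (hg : StrictMono g) : Conn g g :=
  ⟨hg, hg, 1, fun i j hij => by rw [one_mul, inv_one, mul_one]⟩

theorem Conn.symm {g h : Fin k → Λ} (c : Conn g h) : Conn h g := by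
  obtain ⟨hg, hh, b, hb⟩ := c
  refine ⟨hh, hg, b⁻¹, fun i j hij => ?_⟩
  rw [← hb i j hij]
  group

theorem Conn.trans {g h l : Fin k → Λ} (c : Conn g h) (c' : Conn h l) : Conn g l := by
  obtain ⟨hg, hh, b, hb⟩ := c
  obtain ⟨_, hl, b', hb'⟩ := c'
  refine ⟨hg, hl, b' * b, fun i j hij => ?_⟩
  rw [← hb' i j hij, ← hb i j hij]
  group

/-- moving one strand up -/
theorem raise1 {g g' : Fin k → Λ} (hg : StrictMono g) (hg' : StrictMono g') (i : Fin k)
    (h1 : g i < g' i) (h2 : ∀ j, j ≠ i → g' j = g j) : Conn g g' := by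
  refine ⟨hg, hg', a ⟨g' i, g i, h1⟩, fun l m hlm => ?_⟩
  rw [mul_inv_eq_iff_eq_mul]
  unfold A
  by_cases hl : l = i
  · subst hl
    have hm : m ≠ l := (ne_of_gt hlm)
    have h3 : g' l < g m := by
      rw [← h2 m hm]
      exact hg' hlm
    have e := a_rel2 h3 h1
    rw [a_congr (hg' hlm) h3 (h2 m hm) rfl, e]
  · by_cases hm : m = i
    · subst hm
      have e := a_rel1 h1 (hg hlm)
      rw [e, a_congr (hg' hlm) ((hg hlm).trans h1) rfl (h2 l hl)]
    · rw [a_congr (hg' hlm) (hg hlm) (h2 m hm) (h2 l hl)]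
      apply a_comm
      rcases lt_or_gt_of_ne hm with hmi | hmi
      · exact Or.inr (Or.inl (hg hmi))
      · rcases lt_or_gt_of_ne hl with hli | hli
        · refine Or.inr (Or.inr (Or.inl ⟨hg hli, ?_⟩))
          have := hg' hmi
          rwa [h2 m hm] at this
        · left
          have := hg' hli
          rwa [h2 l hl] at this

theorem raise (n : ℕ) : ∀ g g' : Fin k → Λ, StrictMono g → StrictMono g' → (∀ i, g i ≤ g' i) →
    (Finset.univ.filter (fun i => g i ≠ g' i)).card = n → Conn g g' := by
  classical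
  induction n with
  | zero =>
    intro g g' hg hg' _ hn
    have : g = g' := by
      funext i
      by_contra h
      have : i ∈ Finset.univ.filter (fun i => g i ≠ g' i) := by simp [h]
      rw [Finset.card_eq_zero.1 hn] at this
      simp at this
    subst this
    exact Conn.refl hg
  | succ n ih =>
    intro g g' hg hg' hle hn
    have hne : (Finset.univ.filter (fun i => g i ≠ g' i)).Nonempty := by
      rw [← Finset.card_pos, hn]
      omega
    obtain ⟨i, hi, hmax⟩ := Finset.exists_max_image _ (fun i => i) hne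
    have hi' : g i ≠ g' i := (Finset.mem_filter.1 hi).2
    have hlt : g i < g' i := lt_of_le_of_ne (hle i) hi'
    have hup : ∀ j, i < j → g j = g' j := by
      intro j hj
      by_contra h
      exact absurd (hmax j (by simp [h])) (not_le.2 hj)
    let g'' : Fin k → Λ := Function.update g i (g' i)
    have e1 : g'' i = g' i := Function.update_self i _ g
    have e2 : ∀ j, j ≠ i → g'' j = g j := fun j hj => Function.update_of_ne hj _ g
    have hg'' : StrictMono g'' := by
      intro l m hlm
      by_cases hl : l = i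
      · subst hl
        rw [e1, e2 m (ne_of_gt hlm), hup m hlm]
        exact hg' hlm
      · rw [e2 l hl]
        by_cases hm : m = i
        · subst hm
          rw [e1]
          exact (hg hlm).trans hlt
        · rw [e2 m hm]
          exact hg hlm
    refine (raise1 hg hg'' i (by rw [e1]; exact hlt) e2).trans (ih g'' g' hg'' hg' ?_ ?_)
    · intro j
      by_cases hj : j = i
      · subst hj
        rw [e1]
      · rw [e2 j hj]
        exact hle j
    · have h3 : Finset.univ.filter (fun j => g'' j ≠ g' j) =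
          (Finset.univ.filter (fun j => g j ≠ g' j)).erase i := by
        ext j
        simp only [Finset.mem_filter, Finset.mem_univ, true_and, Finset.mem_erase]
        by_cases hj : j = i
        · subst hj
          simp [e1]
        · rw [e2 j hj]
          simp [hj]
      rw [h3, Finset.card_erase_of_mem hi, hn]
      rfl

theorem conn {g h : Fin k → Λ} (hg : StrictMono g) (hh : StrictMono h) : Conn g h := by
  have hm : StrictMono (fun i => max (g i) (h i)) := by
    intro i j hij
    exact max_lt_max (hg hij) (hh hij)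
  exact (raise _ _ _ hg hm (fun i => le_max_left _ _) rfl).trans
    (raise _ _ _ hh hm (fun i => le_max_right _ _) rfl).symm

/-- two order embeddings of a finite ordered set are conjugate -/
theorem conj_emb {S : Finset Λ'} (f f' : S ↪o Λ) :
    ∃ b : BG Λ, ∀ x : BG S, b * map f x * b⁻¹ = map f' x := by
  let e : Fin S.card ≃o S := S.orderIsoOfFin rfl
  obtain ⟨hg, hh, b, hb⟩ := conn (g := fun i => f (e i)) (h := fun i => f' (e i))
    (fun i j hij => f.lt_iff_lt.2 (e.lt_iff_lt.2 hij)) (fun i j hij => f'.lt_iff_lt.2 (e.lt_iff_lt.2 hij))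
  refine ⟨b, fun x => ?_⟩
  have key : (MulAut.conj b).toMonoidHom.comp (map f) = map f' := by
    apply hom_ext
    intro g
    obtain ⟨i, hi⟩ := e.surjective g.s
    obtain ⟨j, hj⟩ := e.surjective g.t
    have hij : i < j := by
      rw [← e.lt_iff_lt, hi, hj]
      exact g.lt
    have h1 := hb i j hij
    change b * map f (a g) * b⁻¹ = map f' (a g)
    rw [map_a, map_a]
    have h2 : a (Gen.map f g) = A (fun i => f (e i)) hg i j hij :=
      a_congr _ _ (congrArg f hj.symm) (congrArg f hi.symm)
    have h3 : a (Gen.map f' g) = A (fun i => f' (e i)) hh i j hij :=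
      a_congr _ _ (congrArg f' hj.symm) (congrArg f' hi.symm)
    rw [h2, h3]
    exact h1
  exact DFunLike.congr_fun key x

/-- finitely many elements come from finitely many strands -/
theorem exists_fin_set (E : Finset (BG Λ)) :
    ∃ S : Finset Λ, ∀ x ∈ E, ∃ y : BG S, map (inc S) y = x := by
  classical
  induction E using Finset.induction_on with
  | empty => exact ⟨∅, by simp⟩
  | insert x E _ ih =>
    obtain ⟨S, hS⟩ := ih
    obtain ⟨T, y, hy⟩ := exists_fin x
    refine ⟨S ∪ T, fun z hz => ?_⟩
    rcases Finset.mem_insert.1 hz with rfl | hz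
    · exact ⟨map (incl Finset.subset_union_right) y, by rw [map_comp]; exact hy⟩
    · obtain ⟨w, hw⟩ := hS z hz
      exact ⟨map (incl Finset.subset_union_left) w, by rw [map_comp]; exact hw⟩

/-- **Order embeddings act by locally inner automorphisms.** -/
theorem locInner (σ : Λ ↪o Λ) (E : Finset (BG Λ)) : ∃ b : BG Λ, ∀ x ∈ E, b * x * b⁻¹ = map σ x := by
  obtain ⟨S, hS⟩ := exists_fin_set E
  obtain ⟨b, hb⟩ := conj_emb (inc S) ((inc S).trans σ)
  refine ⟨b, fun x hx => ?_⟩
  obtain ⟨y, rfl⟩ := hS x hx
  rw [hb y, map_comp]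

variable {C : ∀ (G : Type) [Group G], Prop}

theorem BG_mem (hC : Closed C) (hB : ∀ n : ℕ, C (BG (Fin n))) : C (BG Λ) := by
  classical
  refine hC.colim (Finset Λ) (fun i j => ⟨i ∪ j, Finset.subset_union_left,
    Finset.subset_union_right⟩) (fun S => BG S) (fun S T h => map (incl h)) (BG Λ)
    (fun S => map (inc S)) ?_ ?_ ?_ ?_ ?_ ?_
  · intro S h x
    exact map_id x _ (fun _ => rfl)
  · intro S T U h h' x
    rw [map_comp]
    rfl
  · intro S T h x
    rw [map_comp]
    rfl
  · exact exists_fin
  · intro S x hx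
    exact kernel_fin S x hx
  · intro S
    let e : Fin S.card ≃o S := S.orderIsoOfFin rfl
    refine hC.of_injective _ (BG (Fin S.card)) (map e.symm.toOrderEmbedding) ?_ (hB _)
    intro x y hxy
    have h : ∀ z : BG S, map e.toOrderEmbedding (map e.symm.toOrderEmbedding z) = z := by
      intro z
      rw [map_comp]
      exact map_id z _ (fun w => e.apply_symm_apply w)
    rw [← h x, ← h y, hxy]

/-- **Extensions with kernel a subgroup of a braid group on an ordered set of strands.** -/
theorem ext_mem (hC : Closed C) (hE : ExtClosed C) (hB : ∀ n : ℕ, C (BG (Fin n)))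
    {G Q : Type} [Group G] [Group Q] (f : G →* Q) (hf : Function.Surjective f) (hQ : C Q)
    (ι : f.ker →* BG Λ) (hι : Function.Injective ι)
    (h : ∀ g : G, ¬ IsOfFinOrder (f g) → ∃ (σ : Λ ≃o Λ) (b : BG Λ), ∀ x : f.ker,
      ι ⟨g * x.1 * g⁻¹, (MonoidHom.normal_ker f).conj_mem x.1 x.2 g⟩ =
        b * map σ.toOrderEmbedding (ι x) * b⁻¹) : C G := by
  classical
  have hL : C (BG Λ) := BG_mem hC hB
  refine real_kernel hC hE f hf hQ (hC.of_injective _ _ ι hι hL) ?_
  intro q hq
  obtain ⟨g, rfl⟩ := hf q
  obtain ⟨σ, b, hb⟩ := h g hq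
  refine ⟨g, rfl, fun x hx => (MonoidHom.normal_ker f).conj_mem x hx g, fun E => ?_⟩
  obtain ⟨b', hb'⟩ := locInner σ.toOrderEmbedding ((E.subtype (fun x => x ∈ f.ker)).image ι)
  refine ⟨BG Λ, inferInstance, ι, b * b', hL, hι, ?_⟩
  intro x hx hxE
  have h1 := hb' (ι ⟨x, hx⟩) (Finset.mem_image_of_mem _ (by simpa using hxE))
  rw [hb ⟨x, hx⟩, ← h1]
  group

end Pool.Agent.Q99.OB
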